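import Pool.Agent.H31.FW.TargetsL

/-!
Q_L1: the complete sum modulo a prime.
-/

set_option autoImplicit false

open Finset NumberField

namespace Pool.Agent.H77.FW.L1

open Pool.Agent.H29.TC (MC LC AC)
open Pool.Agent.H31.FW
open Pool.Agent.H23.LB

theorem cs_le {R : Type} [CommRing R] [Fintype R] (η θ : R → ℂ) (hη : MC η) (hθ : AC θ) (h : R) :
    ‖cs η θ h‖ ≤ Fintype.card R := by
  unfold cs
  refine (norm_sum_le _ _).trans ?_
  have h1 : ∀ y ∈ (Finset.univ : Finset R), ‖η (y + h) * (starRingEnd ℂ) (η y) * θ y‖ ≤ 1 := by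
    intro y _
    rw [norm_mul, norm_mul, RCLike.norm_conj, hθ.norm, mul_one]
    exact mul_le_one₀ (hη.norm_le _) (norm_nonneg _) (hη.norm_le _)
  refine (Finset.sum_le_sum h1).trans ?_
  simp

theorem cs_field (hMX : Q_MX) (R : Type) [CommRing R] [Fintype R] (hR : IsField R) (η θ : R → ℂ)
    (hη : MC η) (hθ : AC θ)
    (hp : ∀ w : R, w ≠ 0 → ∃ r : R, IsUnit (1 + r * w) ∧ η (1 + r * w) ≠ 1)
    (h : R) (hh : h ≠ 0) : ‖cs η θ h‖ ≤ 2 * Real.sqrt (Fintype.card R) := by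
  let _ := hR.toField
  let χ : MulChar R ℂ :=
    { toFun := η, map_one' := hη.one, map_mul' := hη.mul, map_nonunit' := hη.zero }
  let ψ : AddChar R ℂ :=
    { toFun := θ, map_zero_eq_one' := hθ.zero, map_add_eq_mul' := hθ.add }
  have hχ : χ ≠ 1 := by
    intro h
    obtain ⟨r, hr, hr'⟩ := hp 1 one_ne_zero
    apply hr'
    have h2 : χ (1 + r * 1) = 1 := by
      rw [h, MulChar.one_apply hr]
    exact h2
  exact hMX R χ ψ h hχ hh

theorem pf_L1 (hMX : Q_MX) : Q_L1 := by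
  intro K _ _ P hPp hP _ η θ hη hθ h
  have hmax : (P ^ 1).IsMaximal := by
    rw [pow_one]
    exact hPp.isMaximal hP
  have hfield : IsField (𝓞 K ⧸ P ^ 1) :=
    Ideal.Quotient.maximal_ideal_iff_isField_quotient _ |>.1 hmax
  have hcard : (Fintype.card (𝓞 K ⧸ P ^ 1) : ℝ) = Nf K (P ^ 1) := by
    unfold Nf
    rw [Ideal.absNorm_apply, Submodule.cardQuot_apply, Nat.card_eq_fintype_card]
  have hge : ∀ I : Ideal (𝓞 K), I ≠ ⊥ → 1 ≤ Nf K I := by
    intro I hI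
    unfold Nf
    have : 0 < Ideal.absNorm I := Nat.pos_of_ne_zero fun h => hI (Ideal.absNorm_eq_zero_iff.1 h)
    exact_mod_cast this
  have hP1 : P ^ 1 ≠ ⊥ := by rwa [pow_one]
  have hq := hge _ hP1
  have hN : 1 ≤ Nf K (Ideal.span {h} ⊔ P ^ 1) := hge _ fun h0 => hP1 (by
    rw [eq_bot_iff, ← h0]
    exact le_sup_right)
  have h0 := norm_nonneg (cs η θ (Ideal.Quotient.mk (P ^ 1) h))
  by_cases hh : Ideal.Quotient.mk (P ^ 1) h = 0
  · have hmem : h ∈ P ^ 1 := Ideal.Quotient.eq_zero_iff_mem.1 hh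
    have hsup : Ideal.span {h} ⊔ P ^ 1 = P ^ 1 :=
      sup_eq_right.2 ((Ideal.span_singleton_le_iff_mem _).2 hmem)
    rw [hsup]
    have h1 := cs_le η θ hη.mc hθ (Ideal.Quotient.mk (P ^ 1) h)
    rw [hcard] at h1
    have h2 : ‖cs η θ (Ideal.Quotient.mk (P ^ 1) h)‖ ^ 2 ≤ Nf K (P ^ 1) ^ 2 :=
      pow_le_pow_left₀ h0 h1 2
    have h3 : Nf K (P ^ 1) ^ 2 ≤ Nf K (P ^ 1) * Nf K (P ^ 1) ^ 2 :=
      le_mul_of_one_le_left (by positivity) hq
    have h4 : 0 ≤ Nf K (P ^ 1) * Nf K (P ^ 1) ^ 2 := by positivity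
    linarith
  · have h1 := cs_field hMX _ hfield η θ hη.mc hθ hη.prim _ hh
    rw [hcard] at h1
    have h2 : ‖cs η θ (Ideal.Quotient.mk (P ^ 1) h)‖ ^ 2 ≤ (2 * Real.sqrt (Nf K (P ^ 1))) ^ 2 :=
      pow_le_pow_left₀ h0 h1 2
    rw [mul_pow, Real.sq_sqrt (by linarith)] at h2
    have h3 : Nf K (P ^ 1) ≤ Nf K (P ^ 1) * Nf K (Ideal.span {h} ⊔ P ^ 1) ^ 2 :=
      le_mul_of_one_le_right (by linarith) (one_le_pow₀ hN)
    linarith

end Pool.Agent.H77.FW.L1
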